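import Pool.Agent.T9h36.SK.Spec
import Pool.Agent.T9h36.SC.P9b

/-!
The choice of the parameters, with `p` independent of `s`.
-/

set_option autoImplicit false

namespace Pool.Agent.T9h36.SK

open Finset Pool.Agent.T9h20.SC Pool.Agent.T9h36.SC

theorem s_param : S_Param := by
  intro ε hε k hk2
  have hr1 : (1 : ℝ) < 2 ^ (ε / 8) := Real.one_lt_rpow (by norm_num) (by linarith)
  obtain ⟨Y, hY⟩ : ∃ Y, Y = ⌈16 * ((k + 1 : ℕ) : ℝ) ^ 3 / ε⌉₊ + 1 := ⟨_, rfl⟩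
  have hceil : ∀ (a : ℝ) (m : ℕ), m = ⌈a / ε⌉₊ + 1 → a ≤ ε * m := by
    intro a m hm
    have h1 := Nat.le_ceil (a / ε)
    have h2 : (m : ℝ) = ⌈a / ε⌉₊ + 1 := by exact_mod_cast hm
    have h3 : a / ε ≤ m := by linarith
    rw [div_le_iff₀ hε] at h3
    linarith
  have hYε := hceil _ _ hY
  obtain ⟨X, hX⟩ : ∃ X, X = (k + 1) ^ 2 * Y := ⟨_, rfl⟩
  obtain ⟨R, hR⟩ : ∃ R, R = ⌈8 * ((k + 1 : ℕ) : ℝ) ^ 5 * X / ε⌉₊ + 1 := ⟨_, rfl⟩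
  have hRε := hceil _ _ hR
  obtain ⟨K₀, hK₀⟩ : ∃ K₀, K₀ = ⌈8 * ((k + 1 : ℕ) : ℝ) / ε⌉₊ + 1 := ⟨_, rfl⟩
  have hK₀ε := hceil _ _ hK₀
  obtain ⟨p, hp, hpp⟩ := Nat.exists_infinite_primes (2 ^ ((k + 1) + R * (2 * (k + 1) + 4)))
  obtain ⟨N₂, hN₂⟩ := poly_lt_exp ((cst k * 2 : ℕ) : ℝ) 1 _ hr1
  obtain ⟨N₃, hN₃⟩ := poly_lt_exp ((2 ^ (4 + 2 * (k + 1) + (2 * (k + 1) + 4) * R) *
    p ^ (2 * (p - 1) + (k + 1) + 1) : ℕ) : ℝ) (p - 1) 4 (by norm_num)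
  refine ⟨p, max (max N₂ N₃) (max R (max K₀ 4)), hpp, ?_⟩
  intro s hs
  have hs1 : 1 ≤ s := by omega
  refine ⟨hs1, ?_⟩
  obtain ⟨n, hn⟩ : ∃ n, n = k * s := ⟨_, rfl⟩
  have hsn : s ≤ n := by
    rw [hn]
    exact Nat.le_mul_of_pos_left _ (by omega)
  rw [← hn]
  have hn1 : 1 ≤ n := by omega
  have hRn : R ≤ n := by omega
  have hR1 : 1 ≤ R := by omega
  have hY1 : 1 ≤ Y := by omega
  have hX1 : 1 ≤ X := by
    rw [hX]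
    exact Nat.mul_pos (Nat.pow_pos (by omega)) hY1
  have hK₀1 : 1 ≤ K₀ := by omega
  refine ⟨X, 2 * X ^ ((k + 1) ^ 2 * (n / R)) * 4 ^ (n / Y + 1), n / R,
    4 * (p ^ 2 * n) ^ (p - 1), hX1, ?_, ?_, ?_, ?_, ?_, ?_⟩
  · have h1 : 0 < X ^ ((k + 1) ^ 2 * (n / R)) := Nat.pow_pos hX1
    have : 0 < 2 * X ^ ((k + 1) ^ 2 * (n / R)) * 4 ^ (n / Y + 1) := by positivity
    exact this
  · exact (Nat.one_le_div_iff (by omega)).2 hRn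
  · have h1 : (X + (k + 1) ^ 2) ^ n ≤ 4 ^ (n / Y + 1) * X ^ n := by
      have e1 : X + (k + 1) ^ 2 = (k + 1) ^ 2 * (Y + 1) := by rw [hX]; ring
      rw [e1, hX, mul_pow, mul_pow]
      calc ((k + 1) ^ 2) ^ n * (Y + 1) ^ n
          ≤ ((k + 1) ^ 2) ^ n * (4 ^ (n / Y + 1) * Y ^ n) :=
            Nat.mul_le_mul_left _ (succ_pow_le Y n hY1)
        _ = 4 ^ (n / Y + 1) * (((k + 1) ^ 2) ^ n * Y ^ n) := by ring
    calc 2 * X ^ ((k + 1) ^ 2 * (n / R)) * (X + (k + 1) ^ 2) ^ n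
        ≤ 2 * X ^ ((k + 1) ^ 2 * (n / R)) * (4 ^ (n / Y + 1) * X ^ n) :=
          Nat.mul_le_mul_left _ h1
      _ = 2 * X ^ ((k + 1) ^ 2 * (n / R)) * 4 ^ (n / Y + 1) * X ^ n := by ring
  · have e1 : p ^ 2 * n + p ^ 2 = p ^ 2 * (n + 1) := by ring
    calc (p ^ 2 * n) ^ (p - 1) * (p ^ 2 * n + p ^ 2) ^ n
        = (p ^ 2 * n) ^ (p - 1) * ((p ^ 2) ^ n * (n + 1) ^ n) := by rw [e1, mul_pow (p ^ 2) (n + 1)]
      _ ≤ (p ^ 2 * n) ^ (p - 1) * ((p ^ 2) ^ n * (4 * n ^ n)) :=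
          Nat.mul_le_mul_left _ (Nat.mul_le_mul_left _ (succ_pow_self_le n hn1))
      _ = 4 * (p ^ 2 * n) ^ (p - 1) * (p ^ 2 * n) ^ n := by
          rw [mul_pow (p ^ 2) n n]
          ring
  · intro m hm
    have h16 : 11 ≤ 2 ^ n := by
      have h5 : 2 ^ 4 ≤ 2 ^ n := Nat.pow_le_pow_right (by norm_num) (by omega)
      omega
    have h1 := cond3 (ℓ := k + 1) (f := 11) (by omega) rfl hR1 hRn hp
      (by exact_mod_cast hN₃ n (by omega)) h16 hm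
    refine le_trans ?_ h1.le
    obtain ⟨U, hU⟩ : ∃ U, U = (((k + 1) ^ n + 1) * ((k + 1) ^ n * ((2 ^ (n / R) + 1) ^ (k + 1) *
      (p ^ (n + 1 - n / R) * (4 * (p ^ 2 * n) ^ (p - 1)))))) := ⟨_, rfl⟩
    rw [← hU]
    calc 2 * ((m + 2) * ((2 + 1) * U) * p ^ (k + 1)) = (6 * (m + 2)) * (U * p ^ (k + 1)) := by ring
      _ ≤ (12 * (m + 1)) * (U * p ^ (k + 1)) := Nat.mul_le_mul_right _ (by omega)
      _ = (m + 1) * ((11 + 1) * U) * p ^ (k + 1) := by ring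
  · have h2 : 2 ^ K₀ ≤ 2 ^ n := Nat.pow_le_pow_right (by norm_num) (by omega)
    have h3 := cond4 (f := 2) hε hn hn1 (by norm_num) hK₀1 h2 (by linarith) hR1 rfl hRε hY1 hYε
      (hN₂ n (by omega))
    exact h3.le

end Pool.Agent.T9h36.SK
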