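import Pool.Agent.T9h36.SK.Spec

/-!
Set Cover with a few NOT gates: further pieces for the sharp trade-off.
-/

set_option autoImplicit false

namespace Pool.Agent.T9h36.SK

/-- (G) Large puzzles. -/
def S_Sharp : Prop := ∀ k : ℕ, 3 ≤ k → ∀ δ : ℝ, 0 < δ → ∃ m₀ : ℕ, ∀ m ≥ m₀, ∃ M : ℕ,
  ((k * m).choose m : ℝ) ^ (1 - δ) ≤ M ∧ Nonempty (Puzzle k m M)

/-- (H1) `(1 + (k - 1)) ^ (k s)` is at least the term number `s` of the binomial formula. -/
def S_Ent1 : Prop := ∀ k s : ℕ, 2 ≤ k → (k * s).choose s * (k - 1) ^ ((k - 1) * s) ≤ k ^ (k * s)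

/-- (H2) `(1 + (k - 1)) ^ (k m)` is at most `k m + 1` times the term number `m`, which is the largest
one (the ratio of the terms `j + 1` and `j` is `(k m - j) / ((j + 1) (k - 1))`). -/
def S_Ent2 : Prop := ∀ k m : ℕ, 2 ≤ k →
  k ^ (k * m) ≤ (k * m + 1) * ((k * m).choose m * (k - 1) ^ ((k - 1) * m))

end Pool.Agent.T9h36.SK
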