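import Mathlib

/-!
# Families of sets as inputs of circuits
-/

set_option autoImplicit false

namespace Pool.Agent.T9h36.SK

/-- The input which describes the family `ℱ` of subsets of `Fin n`: one bit for each subset of
`Fin n`, which says whether it belongs to `ℱ`. -/
def indicator {n : ℕ} (ℱ : Finset (Finset (Fin n))) : Finset (Fin n) → Bool :=
  fun A => decide (A ∈ ℱ)

end Pool.Agent.T9h36.SK
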