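import Pool.Agent.T9h36.SK.Main
import Pool.Agent.T9h36.SK.Spec2
import Pool.Agent.T9h36.SC.P9

/-!
Set Cover with a few NOT gates: the trade-off.
-/

set_option autoImplicit false

namespace Pool.Agent.T9h36.SK

open Finset
open Pool.Agent.T9h34 (Circuit)
open Pool.Agent.T9h20.SC
open Pool.Agent.T9h36.SN (IsLevel levelProduct)
open Pool.Agent.T9h36.SC (poly_lt_exp)

/-- The base. -/
noncomputable def bas (k : ℕ) : ℝ := (k : ℝ) ^ k / ((k : ℝ) - 1) ^ (k - 1)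

theorem one_lt_bas {k : ℕ} (hk : 2 ≤ k) : 1 < bas k := by
  have h1 : (1 : ℝ) ≤ (k : ℝ) - 1 := by
    have : (2 : ℝ) ≤ k := by exact_mod_cast hk
    linarith
  have h2 : (0 : ℝ) < ((k : ℝ) - 1) ^ (k - 1) := by positivity
  unfold bas
  rw [one_lt_div h2]
  calc ((k : ℝ) - 1) ^ (k - 1) ≤ (k : ℝ) ^ (k - 1) := by
        apply pow_le_pow_left₀ (by linarith)
        linarith
    _ < (k : ℝ) ^ k := by
        apply pow_lt_pow_right₀
        · linarith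
        · omega

theorem choose_le_bas (h1 : S_Ent1) {k : ℕ} (hk : 2 ≤ k) (s : ℕ) :
    ((k * s).choose s : ℝ) ≤ bas k ^ s := by
  have h := h1 k s hk
  have h2 : (1 : ℝ) ≤ (k : ℝ) - 1 := by
    have : (2 : ℝ) ≤ k := by exact_mod_cast hk
    linarith
  have h3 : ((k - 1 : ℕ) : ℝ) = (k : ℝ) - 1 := by
    rw [Nat.cast_sub (by omega)]
    norm_num
  have h4 : ((k * s).choose s : ℝ) * ((k : ℝ) - 1) ^ ((k - 1) * s) ≤ (k : ℝ) ^ (k * s) := by
    rw [← h3]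
    exact_mod_cast h
  unfold bas
  rw [div_pow, ← pow_mul, ← pow_mul, le_div_iff₀ (by positivity)]
  exact h4

theorem bas_le_choose (h1 : S_Ent2) {k : ℕ} (hk : 2 ≤ k) (m : ℕ) :
    bas k ^ m ≤ ((k : ℝ) * m + 1) * (k * m).choose m := by
  have h := h1 k m hk
  have h2 : (1 : ℝ) ≤ (k : ℝ) - 1 := by
    have : (2 : ℝ) ≤ k := by exact_mod_cast hk
    linarith
  have h3 : ((k - 1 : ℕ) : ℝ) = (k : ℝ) - 1 := by
    rw [Nat.cast_sub (by omega)]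
    norm_num
  have h4 : (k : ℝ) ^ (k * m) ≤ ((k : ℝ) * m + 1) * (((k * m).choose m : ℝ) *
      ((k : ℝ) - 1) ^ ((k - 1) * m)) := by
    rw [← h3]
    exact_mod_cast h
  unfold bas
  rw [div_pow, ← pow_mul, ← pow_mul, div_le_iff₀ (by positivity)]
  linarith

/-- Large puzzles in terms of `bas`. -/
theorem large (hG : S_Sharp) (h2 : S_Ent2) {k : ℕ} (hk : 3 ≤ k) (ε : ℝ) (hε : 0 < ε)
    (hε1 : ε < 1) :
    ∃ m₂ : ℕ, ∀ m ≥ m₂, ∃ M : ℕ, bas k ^ ((1 - ε) * (m : ℝ)) ≤ M ∧ Nonempty (Puzzle k m M) := by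
  obtain ⟨m₀, hm₀⟩ := hG k hk (ε / 2) (by linarith)
  have hA := one_lt_bas (k := k) (by omega)
  have hA0 : 0 < bas k := by linarith
  have hA2 : 1 < bas k ^ (ε / 2) := Real.one_lt_rpow hA (by linarith)
  obtain ⟨m₁, hm₁⟩ := poly_lt_exp ((k : ℝ) + 1) 1 _ hA2
  refine ⟨max (max m₀ m₁) 1, ?_⟩
  intro m hm
  obtain ⟨M, hM1, hM2⟩ := hm₀ m (by omega)
  refine ⟨M, le_trans ?_ hM1, hM2⟩
  have h3 := hm₁ m (by omega)
  have hm1 : (1 : ℝ) ≤ m := by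
    have : 1 ≤ m := by omega
    exact_mod_cast this
  have h4 : (k : ℝ) * m + 1 ≤ (bas k ^ (ε / 2)) ^ m := by
    rw [pow_one] at h3
    nlinarith
  have h5 := bas_le_choose h2 (k := k) (by omega) m
  have hC0 : (0 : ℝ) ≤ ((k * m).choose m : ℝ) := Nat.cast_nonneg _
  have h6 : bas k ^ ((1 - ε / 2) * (m : ℝ)) ≤ ((k * m).choose m : ℝ) := by
    have h7 : bas k ^ m = bas k ^ ((1 - ε / 2) * (m : ℝ)) * (bas k ^ (ε / 2)) ^ m := by
      rw [← Real.rpow_natCast (bas k ^ (ε / 2)) m, ← Real.rpow_mul hA0.le,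
        ← Real.rpow_add hA0, ← Real.rpow_natCast]
      congr 1
      ring
    rw [h7] at h5
    have h8 : 0 < (bas k ^ (ε / 2)) ^ m := by positivity
    have h9 : bas k ^ ((1 - ε / 2) * (m : ℝ)) * (bas k ^ (ε / 2)) ^ m ≤
        ((k * m).choose m : ℝ) * (bas k ^ (ε / 2)) ^ m := by
      refine h5.trans ?_
      rw [mul_comm]
      exact mul_le_mul_of_nonneg_left h4 hC0
    exact le_of_mul_le_mul_right h9 h8
  calc bas k ^ ((1 - ε) * (m : ℝ)) ≤ bas k ^ (((1 - ε / 2) * (m : ℝ)) * (1 - ε / 2)) := by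
        apply Real.rpow_le_rpow_of_exponent_le hA.le
        nlinarith [sq_nonneg ε]
    _ = (bas k ^ ((1 - ε / 2) * (m : ℝ))) ^ (1 - ε / 2) := by
        rw [Real.rpow_mul hA0.le]
    _ ≤ ((k * m).choose m : ℝ) ^ (1 - ε / 2) :=
        Real.rpow_le_rpow (by positivity) h6 (by linarith)

/-- The trade-off. -/
theorem tradeoff (hH : S_Hard) (hP : S_Param) (hC : S_Path) (hL : S_Leaf) (hM : S_Mono)
    (hY : S_Yes) (hN : S_No) (hG : S_Sharp) (h1 : S_Ent1) (h2 : S_Ent2)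
    (ε : ℝ) (hε : 0 < ε) (k : ℕ) (hk : 3 ≤ k) :
    ∃ B : ℝ, 1 ≤ B ∧ ∀ S : ℕ, 1 ≤ S → ∀ (C : Circuit (Finset (Fin (k * S)))),
      (∀ ℱ : Finset (Finset (Fin (k * S))), (∀ A ∈ ℱ, A.card = S) →
        (C.eval (indicator ℱ) = true ↔ HasCover k ℱ)) →
      ∀ lev, IsLevel C lev →
    (2 : ℝ) ^ ((1 - ε) * ((k * S : ℕ) : ℝ)) ≤ B * (C.size + C.numReads + 1) *
      (levelProduct C lev : ℝ) ^ (((k * S : ℕ) : ℝ) / Real.logb 2 ((k * S).choose S)) := by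
  by_cases hε1 : ε < 1
  swap
  · refine ⟨1, le_rfl, ?_⟩
    intro S hS C _ lev _
    have h3 : (2 : ℝ) ^ ((1 - ε) * ((k * S : ℕ) : ℝ)) ≤ 1 := by
      apply Real.rpow_le_one_of_one_le_of_nonpos (by norm_num)
      push Not at hε1
      have : (0 : ℝ) ≤ ((k * S : ℕ) : ℝ) := Nat.cast_nonneg _
      nlinarith
    have hLP : (1 : ℝ) ≤ levelProduct C lev := by
      have : 0 < levelProduct C lev := by
        unfold levelProduct
        exact prod_pos fun _ _ => by omega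
      exact_mod_cast this
    have h4 : (1 : ℝ) ≤ (levelProduct C lev : ℝ) ^
        (((k * S : ℕ) : ℝ) / Real.logb 2 ((k * S).choose S)) := by
      apply Real.one_le_rpow hLP
      apply div_nonneg (Nat.cast_nonneg _)
      apply Real.logb_nonneg (by norm_num)
      have : 1 ≤ (k * S).choose S := Nat.choose_pos (Nat.le_mul_of_pos_left _ (by omega))
      exact_mod_cast this
    have h5 : (1 : ℝ) ≤ 1 * ((C.size : ℝ) + C.numReads + 1) := by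
      have h6 : (0 : ℝ) ≤ (C.size : ℝ) := Nat.cast_nonneg _
      have h7 : (0 : ℝ) ≤ (C.numReads : ℝ) := Nat.cast_nonneg _
      linarith
    refine h3.trans ?_
    calc (1 : ℝ) = 1 * 1 := by norm_num
      _ ≤ _ := mul_le_mul h5 h4 (by norm_num) (by linarith)
  obtain ⟨p, s₀, hp, hex⟩ := exact hH hP hC hL hM hY hN ε hε k (by omega)
  obtain ⟨m₂, hm₂⟩ := large hG h2 hk ε hε hε1
  have hA := one_lt_bas (k := k) (by omega)
  have hA0 : 0 < bas k := by linarith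
  obtain ⟨A, hAdef⟩ : ∃ A, A = bas k := ⟨_, rfl⟩
  rw [← hAdef] at hA hA0
  obtain ⟨Q, hQ⟩ : ∃ Q : ℝ, Q = 2 * (p : ℝ) ^ k := ⟨_, rfl⟩
  have hp1 : (1 : ℝ) ≤ p := by exact_mod_cast hp.one_lt.le
  have hQ1 : 1 ≤ Q := by
    rw [hQ]
    have : (1 : ℝ) ≤ (p : ℝ) ^ k := one_le_pow₀ hp1
    linarith
  obtain ⟨h, hh⟩ : ∃ h, h = Real.logb 2 A := ⟨_, rfl⟩
  have hh0 : 0 < h := by
    rw [hh]
    exact Real.logb_pos (by norm_num) hA
  have h2h : (2 : ℝ) ^ h = A := by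
    rw [hh]
    exact Real.rpow_logb (by norm_num) (by norm_num) hA0
  obtain ⟨B₀, hB₀⟩ : ∃ B₀ : ℝ, B₀ = 2 ^ (k * (m₂ + 1)) * (2 * Q) ^ ((k : ℝ) / h) := ⟨_, rfl⟩
  have hB₀1 : 1 ≤ B₀ := by
    rw [hB₀]
    have e1 : (1 : ℝ) ≤ 2 ^ (k * (m₂ + 1)) := one_le_pow₀ (by norm_num)
    have e2 : (1 : ℝ) ≤ (2 * Q) ^ ((k : ℝ) / h) := Real.one_le_rpow (by linarith) (by positivity)
    nlinarith
  refine ⟨4 * 2 ^ (k * s₀) * B₀, ?_, ?_⟩
  · have e1 : (1 : ℝ) ≤ 2 ^ (k * s₀) := one_le_pow₀ (by norm_num)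
    nlinarith
  intro S hS C hdec lev hl
  obtain ⟨LP, hLPd⟩ : ∃ LP : ℝ, LP = levelProduct C lev := ⟨_, rfl⟩
  have hLP : (1 : ℝ) ≤ LP := by
    have : 0 < levelProduct C lev := by
      unfold levelProduct
      exact prod_pos fun _ _ => by omega
    rw [hLPd]
    exact_mod_cast this
  rw [← hLPd]
  obtain ⟨Nn, hNn⟩ : ∃ Nn : ℝ, Nn = ((k * S).choose S : ℝ) := ⟨_, rfl⟩
  rw [← hNn]
  have hN2 : 1 < Nn := by
    rw [hNn]
    have h3 : 1 < (k * S).choose S := by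
      have h4 : S < k * S := by nlinarith
      have h5 : 0 < (k * S).choose S := Nat.choose_pos h4.le
      have h6 : (k * S).choose S ≠ 1 := by
        intro h
        rw [Nat.choose_eq_one_iff] at h
        omega
      omega
    exact_mod_cast h3
  have hlogN : 0 < Real.logb 2 Nn := Real.logb_pos (by norm_num) hN2
  have hlogN2 : Real.logb 2 Nn ≤ S * h := by
    have h3 : Nn ≤ A ^ S := by
      rw [hNn, hAdef]
      exact choose_le_bas h1 (by omega) S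
    calc Real.logb 2 Nn ≤ Real.logb 2 (A ^ S) :=
          Real.logb_le_logb_of_le (by norm_num) (by linarith) h3
      _ = S * h := by rw [Real.logb_pow, hh]
  obtain ⟨W, hW⟩ : ∃ W : ℝ, W = LP ^ (((k * S : ℕ) : ℝ) / Real.logb 2 Nn) := ⟨_, rfl⟩
  rw [← hW]
  have hW1 : LP ^ ((k : ℝ) / h) ≤ W := by
    rw [hW]
    apply Real.rpow_le_rpow_of_exponent_le hLP
    rw [div_le_div_iff₀ hh0 hlogN]
    push_cast
    have hk0 : (0 : ℝ) ≤ k := Nat.cast_nonneg _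
    nlinarith
  have hLPh : 1 ≤ LP ^ ((k : ℝ) / h) := Real.one_le_rpow hLP (by positivity)
  have hW0 : 1 ≤ W := hLPh.trans hW1
  have h2Q : 1 ≤ 2 * Q * LP := by nlinarith
  obtain ⟨lam, hlam⟩ : ∃ lam, lam = Real.logb A (2 * Q * LP) := ⟨_, rfl⟩
  have hlam0 : 0 ≤ lam := by
    rw [hlam]
    exact Real.logb_nonneg hA h2Q
  have hAlam : A ^ lam = 2 * Q * LP := by
    rw [hlam]
    exact Real.rpow_logb hA0 hA.ne' (by linarith)
  obtain ⟨m, hm⟩ : ∃ m, m = m₂ + ⌈lam / (1 - ε)⌉₊ := ⟨_, rfl⟩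
  have hε2 : 0 < 1 - ε := by linarith
  have hm1 : lam ≤ (1 - ε) * m := by
    have h3 := Nat.le_ceil (lam / (1 - ε))
    have h4 : ((⌈lam / (1 - ε)⌉₊ : ℕ) : ℝ) ≤ m := by
      rw [hm]
      push_cast
      have : (0 : ℝ) ≤ m₂ := Nat.cast_nonneg _
      linarith
    have h5 : lam / (1 - ε) ≤ m := h3.trans h4
    rw [div_le_iff₀ hε2] at h5
    linarith
  have hm3 : (1 - ε) * m ≤ (m₂ + 1) + lam := by
    have h3 := Nat.ceil_lt_add_one (a := lam / (1 - ε)) (by positivity)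
    have h4 : (m : ℝ) ≤ m₂ + (lam / (1 - ε) + 1) := by
      rw [hm]
      push_cast
      linarith
    have h5 : (1 - ε) * m ≤ (1 - ε) * (m₂ + (lam / (1 - ε) + 1)) :=
      mul_le_mul_of_nonneg_left h4 hε2.le
    have h6 : (1 - ε) * (m₂ + (lam / (1 - ε) + 1)) = (1 - ε) * (m₂ + 1) + lam := by
      field_simp
      ring
    have h7 : (0 : ℝ) ≤ (m₂ : ℝ) + 1 := by positivity
    nlinarith
  obtain ⟨M, hM1, hM2⟩ := hm₂ m (by omega)
  rw [← hAdef] at hM1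
  have hM3 : 2 * Q * LP ≤ M := by
    rw [← hAlam]
    exact (Real.rpow_le_rpow_of_exponent_le hA.le hm1).trans hM1
  have hkey : (2 : ℝ) ^ ((1 - ε) * ((k * m : ℕ) : ℝ)) ≤ B₀ * W := by
    have h3 : (2 : ℝ) ^ ((1 - ε) * ((k * m : ℕ) : ℝ)) ≤
        2 ^ (((k * (m₂ + 1) : ℕ) : ℝ) + k * lam) := by
      apply Real.rpow_le_rpow_of_exponent_le (by norm_num)
      push_cast
      have hk0 : (0 : ℝ) ≤ k := Nat.cast_nonneg _
      calc (1 - ε) * ((k : ℝ) * m) = k * ((1 - ε) * m) := by ring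
        _ ≤ k * ((m₂ + 1) + lam) := mul_le_mul_of_nonneg_left hm3 hk0
        _ = (k : ℝ) * (m₂ + 1) + k * lam := by ring
    have h4 : (2 : ℝ) ^ (k * lam) = (2 * Q * LP) ^ ((k : ℝ) / h) := by
      rw [← hAlam, ← Real.rpow_mul hA0.le, ← h2h, ← Real.rpow_mul (by norm_num)]
      congr 1
      field_simp
    rw [Real.rpow_add (by norm_num), h4, Real.rpow_natCast,
      Real.mul_rpow (by linarith) (by linarith)] at h3
    calc (2 : ℝ) ^ ((1 - ε) * ((k * m : ℕ) : ℝ))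
        ≤ 2 ^ (k * (m₂ + 1)) * ((2 * Q) ^ ((k : ℝ) / h) * LP ^ ((k : ℝ) / h)) := h3
      _ = B₀ * LP ^ ((k : ℝ) / h) := by rw [hB₀]; ring
      _ ≤ B₀ * W := mul_le_mul_of_nonneg_left hW1 (by linarith)
  have hsz : (1 : ℝ) ≤ (C.size : ℝ) + C.numReads + 1 := by
    have h6 : (0 : ℝ) ≤ (C.size : ℝ) := Nat.cast_nonneg _
    have h7 : (0 : ℝ) ≤ (C.numReads : ℝ) := Nat.cast_nonneg _
    linarith
  have hB₀W : 0 ≤ B₀ * W := by positivity
  have hs₀1 : (1 : ℝ) ≤ 2 ^ (k * s₀) := one_le_pow₀ (by norm_num)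
  by_cases hS2 : m + s₀ ≤ S
  · obtain ⟨s, hs, rfl⟩ : ∃ s, s₀ ≤ s ∧ S = s + m := ⟨S - m, by omega, by omega⟩
    obtain ⟨hs1, hex2⟩ := hex s hs
    have h3 := hex2 m M hM2 C hdec lev hl
    rw [← hQ, ← hLPd] at h3
    obtain ⟨Z, hZ⟩ : ∃ Z : ℝ, Z = (2 : ℝ) ^ ((1 - ε) * ((k * s : ℕ) : ℝ)) := ⟨_, rfl⟩
    have hZ0 : 0 < Z := by
      rw [hZ]
      positivity
    rw [← hZ] at h3
    have hM0 : 0 < (M : ℝ) := by linarith
    have h4 : (M : ℝ) * 1 ≤ M * (2 * (((C.size + C.numReads + 1 : ℕ) + 1 : ℝ) / Z)) := by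
      linarith
    have h5 := le_of_mul_le_mul_left h4 hM0
    have h6 : Z ≤ 4 * ((C.size : ℝ) + C.numReads + 1) := by
      have h7 : Z * 1 ≤ Z * (2 * (((C.size + C.numReads + 1 : ℕ) + 1 : ℝ) / Z)) :=
        mul_le_mul_of_nonneg_left h5 hZ0.le
      have h8 : Z * (2 * (((C.size + C.numReads + 1 : ℕ) + 1 : ℝ) / Z)) =
          2 * ((C.size + C.numReads + 1 : ℕ) + 1 : ℝ) := by
        field_simp
      rw [h8] at h7
      push_cast at h7
      linarith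
    have h9 : (2 : ℝ) ^ ((1 - ε) * ((k * (s + m) : ℕ) : ℝ)) =
        Z * (2 : ℝ) ^ ((1 - ε) * ((k * m : ℕ) : ℝ)) := by
      rw [hZ, ← Real.rpow_add (by norm_num)]
      congr 1
      push_cast
      ring
    rw [h9]
    calc Z * (2 : ℝ) ^ ((1 - ε) * ((k * m : ℕ) : ℝ))
        ≤ (4 * ((C.size : ℝ) + C.numReads + 1)) * (B₀ * W) :=
          mul_le_mul h6 hkey (by positivity) (by positivity)
      _ = 1 * (4 * ((C.size : ℝ) + C.numReads + 1) * (B₀ * W)) := by ring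
      _ ≤ 2 ^ (k * s₀) * (4 * ((C.size : ℝ) + C.numReads + 1) * (B₀ * W)) :=
          mul_le_mul_of_nonneg_right hs₀1 (by positivity)
      _ = 4 * 2 ^ (k * s₀) * B₀ * ((C.size : ℝ) + C.numReads + 1) * W := by ring
  · push Not at hS2
    have h3 : (2 : ℝ) ^ ((1 - ε) * ((k * S : ℕ) : ℝ)) ≤
        2 ^ ((1 - ε) * ((k * m : ℕ) : ℝ)) * 2 ^ (k * s₀) := by
      rw [← Real.rpow_natCast 2 (k * s₀), ← Real.rpow_add (by norm_num)]
      apply Real.rpow_le_rpow_of_exponent_le (by norm_num)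
      have h4 : ((k * S : ℕ) : ℝ) ≤ ((k * m : ℕ) : ℝ) + ((k * s₀ : ℕ) : ℝ) := by
        have : k * S ≤ k * m + k * s₀ := by
          rw [← Nat.mul_add]
          exact Nat.mul_le_mul_left _ hS2.le
        exact_mod_cast this
      have h5 : (0 : ℝ) ≤ ((k * s₀ : ℕ) : ℝ) := Nat.cast_nonneg _
      calc (1 - ε) * ((k * S : ℕ) : ℝ) ≤ (1 - ε) * (((k * m : ℕ) : ℝ) + ((k * s₀ : ℕ) : ℝ)) :=
            mul_le_mul_of_nonneg_left h4 hε2.le
        _ = (1 - ε) * ((k * m : ℕ) : ℝ) + (1 - ε) * ((k * s₀ : ℕ) : ℝ) := by ring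
        _ ≤ (1 - ε) * ((k * m : ℕ) : ℝ) + 1 * ((k * s₀ : ℕ) : ℝ) :=
            add_le_add_right (mul_le_mul_of_nonneg_right (by linarith) h5) _
        _ = (1 - ε) * ((k * m : ℕ) : ℝ) + ((k * s₀ : ℕ) : ℝ) := by rw [one_mul]
    calc (2 : ℝ) ^ ((1 - ε) * ((k * S : ℕ) : ℝ))
        ≤ 2 ^ ((1 - ε) * ((k * m : ℕ) : ℝ)) * 2 ^ (k * s₀) := h3
      _ ≤ (B₀ * W) * 2 ^ (k * s₀) := mul_le_mul_of_nonneg_right hkey (by positivity)
      _ = 1 * ((B₀ * W) * 2 ^ (k * s₀)) := by ring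
      _ ≤ (4 * ((C.size : ℝ) + C.numReads + 1)) * ((B₀ * W) * 2 ^ (k * s₀)) :=
          mul_le_mul_of_nonneg_right (by linarith) (by positivity)
      _ = 4 * 2 ^ (k * s₀) * B₀ * ((C.size : ℝ) + C.numReads + 1) * W := by ring

end Pool.Agent.T9h36.SK
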