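import Pool.Agent.T9h36.SK.Spec
import Pool.Agent.T9h36.SN.Levels

/-!
Set Cover with a few NOT gates: the assembly.
-/

set_option autoImplicit false

namespace Pool.Agent.T9h36.SK

open Finset
open Pool.Agent.T9h34 (Circuit)
open Pool.Agent.T9h16 (Leaf)
open Pool.Agent.T9h20.SC
open Pool.Agent.T9h36.SN (IsLevel levelProduct pathY)

theorem card_wt (k s p : ℕ) [Fact p.Prime] (hk : 1 ≤ k * s) : Nonempty (Wt k s p) := by
  refine ⟨⟨fun i => if i = ⟨0, by omega⟩ then 1 else 0, ?_⟩⟩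
  rw [sum_ite_eq' univ]
  simp

open Classical in
/-- The approximation method with `ε`. -/
theorem hardEps (hH : S_Hard) (hP : S_Param) (ε : ℝ) (hε : 0 < ε) (k : ℕ) (hk : 2 ≤ k) :
    ∃ p s₀ : ℕ, ∃ _ : Fact p.Prime, ∀ s ≥ s₀, 1 ≤ s ∧
    ∀ (Λ : Type) (D : Circuit Λ), (∀ g ∈ D.gates, g.IsMono) →
    ∀ x : Set (Atom k (k * s)) → Λ → Bool, (∀ a, Leaf (fun z => x z a = true)) →
    ((univ.filter fun π : Equiv.Perm (Fin (k * s)) => D.eval (x (posA k s π)) = true).card : ℝ) /
      Fintype.card (Equiv.Perm (Fin (k * s)))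
    ≤ ((D.size : ℝ) + 1) / (2 : ℝ) ^ ((1 - ε) * ((k * s : ℕ) : ℝ)) +
      2 * (p : ℝ) ^ k *
        (((univ.filter fun w : Wt k s p => D.eval (x (negA k s p w)) = true).card : ℝ) /
          Fintype.card (Wt k s p)) := by
  obtain ⟨p, s₀, hp, h⟩ := hP ε hε k hk
  haveI : Fact p.Prime := ⟨hp⟩
  refine ⟨p, s₀, ⟨hp⟩, ?_⟩
  intro s hs
  obtain ⟨hs1, X, K, r, G, h1, h2, h3, h4, h5, h6, h7⟩ := h s hs
  refine ⟨hs1, ?_⟩
  intro Λ D hD x hx
  have hZ : (0 : ℝ) < (2 : ℝ) ^ ((1 - ε) * ((k * s : ℕ) : ℝ)) := by positivity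
  have hw0 : (0 : ℝ) ≤ 2 * (p : ℝ) ^ k *
        (((univ.filter fun w : Wt k s p => D.eval (x (negA k s p w)) = true).card : ℝ) /
          Fintype.card (Wt k s p)) := by positivity
  by_cases hsize : D.size ≤ 2 ^ (k * s)
  · refine (hH k s p X K r G hk hs1 h1 h2 h3 h4 h5 Λ D hD (h6 _ hsize) x hx).trans ?_
    apply add_le_add_left
    rw [div_le_div_iff₀ (by positivity) hZ]
    have h8 : (0 : ℝ) ≤ (D.size : ℝ) + 1 := by positivity
    calc ((D.size : ℝ) + 1) * loss k s 2 K * (2 : ℝ) ^ ((1 - ε) * ((k * s : ℕ) : ℝ))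
        = ((D.size : ℝ) + 1) * (loss k s 2 K * (2 : ℝ) ^ ((1 - ε) * ((k * s : ℕ) : ℝ))) := by ring
      _ ≤ ((D.size : ℝ) + 1) * 2 ^ (k * s) := mul_le_mul_of_nonneg_left h7 h8
  · push Not at hsize
    have h8 : ((univ.filter fun π : Equiv.Perm (Fin (k * s)) =>
        D.eval (x (posA k s π)) = true).card : ℝ) /
        Fintype.card (Equiv.Perm (Fin (k * s))) ≤ 1 := by
      apply div_le_one_of_le₀ _ (Nat.cast_nonneg _)
      exact_mod_cast card_le_univ _
    have h9 : 1 ≤ ((D.size : ℝ) + 1) / (2 : ℝ) ^ ((1 - ε) * ((k * s : ℕ) : ℝ)) := by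
      rw [one_le_div hZ]
      have h10 : (2 : ℝ) ^ (k * s) ≤ D.size := by exact_mod_cast hsize.le
      have h11 : (2 : ℝ) ^ ((1 - ε) * ((k * s : ℕ) : ℝ)) ≤ (2 : ℝ) ^ (k * s) := by
        rw [← Real.rpow_natCast 2 (k * s)]
        apply Real.rpow_le_rpow_of_exponent_le (by norm_num)
        have : (0 : ℝ) ≤ ((k * s : ℕ) : ℝ) := Nat.cast_nonneg _
        nlinarith
      linarith
    linarith

theorem changes_lt {ι : Type} (C : Circuit ι) (lev : ℕ → ℕ) (hl : IsLevel C lev)
    (Y : ℕ → ι → Bool) (hY : ∀ i j, i ≤ j → ∀ e, Y i e = true → Y j e = true) (K : ℕ)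
    [DecidablePred fun J => C.reads (Y J) ≠ C.reads (Y (J + 1))] :
    ((range K).filter fun J => C.reads (Y J) ≠ C.reads (Y (J + 1))).card + 1
      ≤ levelProduct C lev := by
  classical
  obtain ⟨φ, h1, h2⟩ := SN.exists_consecutive Y C.reads K
  have h3 := SN.changes_le_level C lev hl (fun i => Y (φ i))
    (fun i e he => hY _ _ (h1 (Nat.le_succ i)) e he) _ h2
  refine le_trans (le_of_eq ?_) h3
  congr!

variable {k s m M : ℕ}

/-- The chain of no-instances. -/
noncomputable def chainG (p : ℕ) (e : Fin (k * (s + m)) ≃ Fin (k * s) ⊕ Fin (k * m))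
    (P : Puzzle k m M) (ω : Fin M → Wt k s p) (J : ℕ) : Finset (Finset (Fin (k * (s + m)))) :=
  fam e P (pathY (negA k s p) ω J)

/-- The yes-instances. -/
noncomputable def yesF (p : ℕ) (e : Fin (k * (s + m)) ≃ Fin (k * s) ⊕ Fin (k * m))
    (P : Puzzle k m M) (ω : Fin M → Wt k s p) (π : Equiv.Perm (Fin (k * s))) (β : Fin M) :
    Finset (Finset (Fin (k * (s + m)))) :=
  fam e P (Function.update (pathY (negA k s p) ω (Fintype.equivFin (Fin M) β).val) β
    (posA k s π))

open Classical in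
/-- The average. -/
theorem average (hH : S_Hard) (hP : S_Param) (hC : S_Path) (hL : S_Leaf) (hM : S_Mono)
    (ε : ℝ) (hε : 0 < ε) (k : ℕ) (hk : 2 ≤ k) :
    ∃ p s₀ : ℕ, ∃ _ : Fact p.Prime, ∀ s ≥ s₀, 1 ≤ s ∧ ∀ (m M : ℕ)
      (e : Fin (k * (s + m)) ≃ Fin (k * s) ⊕ Fin (k * m)) (P : Puzzle k m M)
      (C : Circuit (Finset (Fin (k * (s + m))))),
    ∑ ω : Fin M → Wt k s p, ∑ β : Fin M, (∑ π : Equiv.Perm (Fin (k * s)),
        if C.eval (indicator (yesF p e P ω π β)) = true then (1 : ℝ) else 0) /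
          Fintype.card (Equiv.Perm (Fin (k * s))) ≤
      Fintype.card (Fin M → Wt k s p) * (M *
        (((C.size + C.numReads + 1 : ℕ) + 1 : ℝ) / (2 : ℝ) ^ ((1 - ε) * ((k * s : ℕ) : ℝ)))) +
      2 * (p : ℝ) ^ k * ∑ ω : Fin M → Wt k s p, ∑ β : Fin M,
        ((if C.eval (indicator (chainG p e P ω ((Fintype.equivFin (Fin M) β).val + 1))) = true
          then (1 : ℝ) else 0) +
        (if C.reads (indicator (chainG p e P ω (Fintype.equivFin (Fin M) β).val)) ≠
          C.reads (indicator (chainG p e P ω ((Fintype.equivFin (Fin M) β).val + 1)))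
          then (1 : ℝ) else 0)) := by
  obtain ⟨p, s₀, hp, h⟩ := hardEps hH hP ε hε k hk
  refine ⟨p, s₀, hp, ?_⟩
  intro s hs
  obtain ⟨hs1, h2⟩ := h s hs
  refine ⟨hs1, ?_⟩
  intro m M e P C
  haveI : Nonempty (Wt k s p) := card_wt k s p (Nat.mul_pos (by omega) hs1)
  have hZ : (0 : ℝ) < (2 : ℝ) ^ ((1 - ε) * ((k * s : ℕ) : ℝ)) := by positivity
  have h3 := hC (Fin M) (Atom k (k * s)) (Wt k s p) (Equiv.Perm (Fin (k * s)))
    (Finset (Fin (k * (s + m)))) (negA k s p) (posA k s) (C.size + C.numReads + 1)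
    (((C.size + C.numReads + 1 : ℕ) + 1 : ℝ) / (2 : ℝ) ^ ((1 - ε) * ((k * s : ℕ) : ℝ)))
    (2 * (p : ℝ) ^ k) (by positivity) (by
      intro D hD hDs x hx
      refine (h2 _ D hD x hx).trans ?_
      apply add_le_add_left
      apply div_le_div_of_nonneg_right _ hZ.le
      have : (D.size : ℝ) ≤ ((C.size + C.numReads + 1 : ℕ) : ℝ) := by exact_mod_cast hDs
      linarith) C le_rfl (fun y => indicator (fam e P y)) (by
      intro y y' hy a ha
      unfold indicator at ha ⊢
      rw [decide_eq_true_eq] at ha ⊢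
      exact (hM k s m M e P y y').1 hy ha) (hL k s m M e P hk)
  have e9 : ((Fintype.card (Fin M) : ℕ) : ℝ) = M := by rw [Fintype.card_fin]
  rw [e9] at h3
  exact h3

theorem atoms_pos (k s : ℕ) (π : Equiv.Perm (Fin (k * s))) : ∀ a ∈ posA k s π, a.2.card = s := by
  intro a ha
  have h1 : a.2 = univ.filter (fun i => cls k s (π i) = a.1) := ha
  rw [h1]
  exact cls_card k s π a.1

theorem path_sub (p : ℕ) (ω : Fin M → Wt k s p) (J : ℕ) (j : Fin M) :
    pathY (negA k s p) ω J j ⊆ negA k s p (ω j) := by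
  unfold pathY
  split_ifs
  · exact subset_rfl
  · exact Set.empty_subset _

theorem chain_card (hM : S_Mono) (p : ℕ) (e : Fin (k * (s + m)) ≃ Fin (k * s) ⊕ Fin (k * m))
    (P : Puzzle k m M) (ω : Fin M → Wt k s p) (J : ℕ) :
    ∀ B ∈ chainG p e P ω J, B.card = s + m :=
  (hM k s m M e P (pathY (negA k s p) ω J) (pathY (negA k s p) ω J)).2
    (fun j _ ha => (path_sub p ω J j ha).1)

theorem yes_card (hM : S_Mono) (p : ℕ) (e : Fin (k * (s + m)) ≃ Fin (k * s) ⊕ Fin (k * m))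
    (P : Puzzle k m M) (ω : Fin M → Wt k s p) (π : Equiv.Perm (Fin (k * s))) (β : Fin M) :
    ∀ B ∈ yesF p e P ω π β, B.card = s + m := by
  refine (hM k s m M e P _ (fun _ => ∅)).2 ?_
  intro j a ha
  by_cases hj : j = β
  · subst hj
    rw [Function.update_self] at ha
    exact atoms_pos k s π a ha
  · rw [Function.update_of_ne hj] at ha
    exact (path_sub p ω _ j ha).1

theorem chain_mono (hM : S_Mono) (p : ℕ) (e : Fin (k * (s + m)) ≃ Fin (k * s) ⊕ Fin (k * m))
    (P : Puzzle k m M) (ω : Fin M → Wt k s p) {J J' : ℕ} (h : J ≤ J') :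
    chainG p e P ω J ⊆ chainG p e P ω J' :=
  (hM k s m M e P _ _).1 (fun j => SN.pathY_mono (negA k s p) ω h j)

theorem chain_sub_yes (hM : S_Mono) (p : ℕ)
    (e : Fin (k * (s + m)) ≃ Fin (k * s) ⊕ Fin (k * m))
    (P : Puzzle k m M) (ω : Fin M → Wt k s p) (π : Equiv.Perm (Fin (k * s))) (β : Fin M) :
    chainG p e P ω (Fintype.equivFin (Fin M) β).val ⊆ yesF p e P ω π β := by
  refine (hM k s m M e P _ _).1 (fun j => ?_)
  by_cases hj : j = β
  · subst hj
    rw [Function.update_self]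
    unfold pathY
    rw [if_neg (lt_irrefl _)]
    exact Set.empty_subset _
  · rw [Function.update_of_ne hj]

theorem chain_no (hN : S_No) (p : ℕ) [Fact p.Prime]
    (e : Fin (k * (s + m)) ≃ Fin (k * s) ⊕ Fin (k * m))
    (P : Puzzle k m M) (hs : 1 ≤ s) (hk : 2 ≤ k) (ω : Fin M → Wt k s p) (J : ℕ) :
    ¬ HasCover k (chainG p e P ω J) :=
  hN k s m M p e P _ hs hk (fun j => ⟨ω j, path_sub p ω J j⟩)

theorem yes_cover (hY : S_Yes) (p : ℕ) (e : Fin (k * (s + m)) ≃ Fin (k * s) ⊕ Fin (k * m))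
    (P : Puzzle k m M) (ω : Fin M → Wt k s p) (π : Equiv.Perm (Fin (k * s))) (β : Fin M) :
    HasCover k (yesF p e P ω π β) := by
  refine hY k s m M e P _ β π ?_
  rw [Function.update_self]

open Classical in
theorem sum_changes (hM : S_Mono) (p : ℕ) (e : Fin (k * (s + m)) ≃ Fin (k * s) ⊕ Fin (k * m))
    (P : Puzzle k m M) (ω : Fin M → Wt k s p) (C : Circuit (Finset (Fin (k * (s + m)))))
    (lev : ℕ → ℕ) (hl : IsLevel C lev) :
    (∑ β : Fin M, if C.reads (indicator (chainG p e P ω (Fintype.equivFin (Fin M) β).val)) ≠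
          C.reads (indicator (chainG p e P ω ((Fintype.equivFin (Fin M) β).val + 1)))
          then (1 : ℝ) else 0) + 1 ≤ levelProduct C lev := by
  have h1 := changes_lt C lev hl (fun J => indicator (chainG p e P ω J)) (by
    intro i j hij a ha
    unfold indicator at ha ⊢
    rw [decide_eq_true_eq] at ha ⊢
    exact chain_mono hM p e P ω hij ha) (Fintype.card (Fin M))
  have h2 : (∑ β : Fin M, if C.reads (indicator (chainG p e P ω (Fintype.equivFin (Fin M) β).val)) ≠
          C.reads (indicator (chainG p e P ω ((Fintype.equivFin (Fin M) β).val + 1)))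
          then (1 : ℝ) else 0) =
      (((range (Fintype.card (Fin M))).filter fun J => C.reads (indicator (chainG p e P ω J)) ≠
        C.reads (indicator (chainG p e P ω (J + 1)))).card : ℝ) := by
    rw [card_filter, Nat.cast_sum, sum_range]
    push_cast
    exact Equiv.sum_comp (Fintype.equivFin (Fin M)) (fun J : Fin (Fintype.card (Fin M)) =>
      if C.reads (indicator (chainG p e P ω J.val)) ≠
        C.reads (indicator (chainG p e P ω (J.val + 1))) then (1 : ℝ) else 0)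
  rw [h2]
  exact_mod_cast h1

/-- The exact case. -/
theorem exact (hH : S_Hard) (hP : S_Param) (hC : S_Path) (hL : S_Leaf) (hM : S_Mono)
    (hY : S_Yes) (hN : S_No) (ε : ℝ) (hε : 0 < ε) (k : ℕ) (hk : 2 ≤ k) :
    ∃ p s₀ : ℕ, p.Prime ∧ ∀ s ≥ s₀, 1 ≤ s ∧ ∀ (m M : ℕ), Nonempty (Puzzle k m M) →
      ∀ (C : Circuit (Finset (Fin (k * (s + m))))),
      (∀ ℱ : Finset (Finset (Fin (k * (s + m)))), (∀ A ∈ ℱ, A.card = s + m) →
        (C.eval (indicator ℱ) = true ↔ HasCover k ℱ)) →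
      ∀ lev, IsLevel C lev →
    (M : ℝ) ≤ M * (((C.size + C.numReads + 1 : ℕ) + 1 : ℝ) /
        (2 : ℝ) ^ ((1 - ε) * ((k * s : ℕ) : ℝ))) +
      2 * (p : ℝ) ^ k * levelProduct C lev := by
  classical
  obtain ⟨p, s₀, hp, h⟩ := average hH hP hC hL hM ε hε k hk
  refine ⟨p, s₀, hp.out, ?_⟩
  intro s hs
  obtain ⟨hs1, h2⟩ := h s hs
  refine ⟨hs1, ?_⟩
  rintro m M ⟨P⟩ C hdec lev hl
  have e : Fin (k * (s + m)) ≃ Fin (k * s) ⊕ Fin (k * m) :=
    Fintype.equivOfCardEq (by simp [Nat.mul_add])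
  have h3 := h2 m M e P C
  haveI : Nonempty (Wt k s p) := card_wt k s p (Nat.mul_pos (by omega) hs1)
  have hΩ : (0 : ℝ) < Fintype.card (Fin M → Wt k s p) := by exact_mod_cast Fintype.card_pos
  have hT : (0 : ℝ) < Fintype.card (Equiv.Perm (Fin (k * s))) := by
    exact_mod_cast Fintype.card_pos
  have h4 : ∑ ω : Fin M → Wt k s p, ∑ β : Fin M, (∑ π : Equiv.Perm (Fin (k * s)),
        if C.eval (indicator (yesF p e P ω π β)) = true then (1 : ℝ) else 0) /
          Fintype.card (Equiv.Perm (Fin (k * s))) = Fintype.card (Fin M → Wt k s p) * M := by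
    have h5 : ∀ ω : Fin M → Wt k s p, ∀ β : Fin M, (∑ π : Equiv.Perm (Fin (k * s)),
        if C.eval (indicator (yesF p e P ω π β)) = true then (1 : ℝ) else 0) /
          Fintype.card (Equiv.Perm (Fin (k * s))) = 1 := by
      intro ω β
      rw [sum_congr rfl (fun π _ => if_pos ((hdec _ (yes_card hM p e P ω π β)).2
        (yes_cover hY p e P ω π β))), sum_const, card_univ, nsmul_eq_mul, mul_one,
        div_self hT.ne']
    rw [sum_congr rfl (fun ω _ => sum_congr rfl (fun β _ => h5 ω β))]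
    rw [sum_const, sum_const, card_univ, card_univ, Fintype.card_fin, nsmul_eq_mul, nsmul_eq_mul,
      mul_one]
  rw [h4] at h3
  have h6 : ∑ ω : Fin M → Wt k s p, ∑ β : Fin M,
        ((if C.eval (indicator (chainG p e P ω ((Fintype.equivFin (Fin M) β).val + 1))) = true
          then (1 : ℝ) else 0) +
        (if C.reads (indicator (chainG p e P ω (Fintype.equivFin (Fin M) β).val)) ≠
          C.reads (indicator (chainG p e P ω ((Fintype.equivFin (Fin M) β).val + 1)))
          then (1 : ℝ) else 0)) ≤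
      Fintype.card (Fin M → Wt k s p) * levelProduct C lev := by
    have h7 : ∀ ω : Fin M → Wt k s p, ∑ β : Fin M,
        ((if C.eval (indicator (chainG p e P ω ((Fintype.equivFin (Fin M) β).val + 1))) = true
          then (1 : ℝ) else 0) +
        (if C.reads (indicator (chainG p e P ω (Fintype.equivFin (Fin M) β).val)) ≠
          C.reads (indicator (chainG p e P ω ((Fintype.equivFin (Fin M) β).val + 1)))
          then (1 : ℝ) else 0)) ≤ levelProduct C lev := by
      intro ω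
      have h8 := sum_changes hM p e P ω C lev hl
      have h9 : ∀ β : Fin M, (if C.eval (indicator (chainG p e P ω
          ((Fintype.equivFin (Fin M) β).val + 1))) = true then (1 : ℝ) else 0) = 0 := by
        intro β
        rw [if_neg]
        intro hcon
        exact chain_no hN p e P hs1 hk ω _ ((hdec _ (chain_card hM p e P ω _)).1 hcon)
      rw [sum_congr rfl (fun β _ => congrArg (fun z => z + _) (h9 β))]
      simp only [zero_add]
      linarith
    refine (sum_le_sum fun ω _ => h7 ω).trans (le_of_eq ?_)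
    rw [sum_const, card_univ, nsmul_eq_mul]
  have hQ : (0 : ℝ) ≤ 2 * (p : ℝ) ^ k := by positivity
  have h10 := h3.trans (add_le_add_right (mul_le_mul_of_nonneg_left h6 hQ) _)
  have h11 : (Fintype.card (Fin M → Wt k s p) : ℝ) * M ≤ Fintype.card (Fin M → Wt k s p) *
      (M * (((C.size + C.numReads + 1 : ℕ) + 1 : ℝ) /
        (2 : ℝ) ^ ((1 - ε) * ((k * s : ℕ) : ℝ))) + 2 * (p : ℝ) ^ k * levelProduct C lev) := by
    refine h10.trans (le_of_eq ?_)
    ring
  exact le_of_mul_le_mul_left h11 hΩ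

end Pool.Agent.T9h36.SK
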