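import Pool.Agent.T9h36.SK.Exact

/-!
Set Cover with a few NOT gates: random instances.
-/

set_option autoImplicit false

namespace Pool.Agent.T9h36.SK

open Finset
open Pool.Agent.T9h34 (Circuit)
open Pool.Agent.T9h20.SC
open Pool.Agent.T9h36.SN (IsLevel levelProduct pathY prob)

theorem prob_eq {Ω : Type} [Fintype Ω] (p : Ω → Prop) [DecidablePred p] :
    prob p = (∑ x : Ω, if p x then (1 : ℝ) else 0) / Fintype.card Ω := by
  unfold SN.prob
  congr 1
  have h : {ω | p ω} = ((univ.filter p : Finset Ω) : Set Ω) := by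
    ext x
    simp
  rw [h, Set.ncard_coe_finset, card_filter]
  push_cast
  rfl

/-- The blocks in their order. -/
noncomputable def ord (M : ℕ) : Fin M ≃ Fin M :=
  (finCongr (Fintype.card_fin M).symm).trans (Fintype.equivFin (Fin M)).symm

theorem ord_val (M : ℕ) (i : Fin M) : (Fintype.equivFin (Fin M) (ord M i)).val = i.val := by
  simp [ord]

theorem sum_ord {M : ℕ} (f : Fin M → ℝ) : ∑ β : Fin M, f β = ∑ i : Fin M, f (ord M i) :=
  (Equiv.sum_comp (ord M) f).symm

theorem random (hH : S_Hard) (hP : S_Param) (hC : S_Path) (hL : S_Leaf) (hM : S_Mono)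
    (hY : S_Yes) (hN : S_No) (hG : S_Sharp)
    (ε : ℝ) (hε : 0 < ε) (k : ℕ) (hk : 3 ≤ k) :
    ∃ B : ℝ, 1 ≤ B ∧ ∀ s m : ℕ, B ≤ s → B ≤ m →
    ∃ (M : ℕ) (Ω T : Type) (_ : Fintype Ω) (_ : Nonempty Ω) (_ : Fintype T) (_ : Nonempty T)
      (G : Ω → ℕ → Finset (Finset (Fin (k * (s + m)))))
      (F : Ω → T → Fin M → Finset (Finset (Fin (k * (s + m))))),
      ((k * m).choose m : ℝ) ^ (1 - ε) ≤ M ∧
      (∀ ω i, G ω i ⊆ G ω (i + 1) ∧ (∀ A ∈ G ω i, A.card = s + m) ∧ ¬ HasCover k (G ω i)) ∧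
      (∀ ω t, ∀ i : Fin M, G ω i ⊆ F ω t i ∧ (∀ A ∈ F ω t i, A.card = s + m) ∧ HasCover k (F ω t i)) ∧
      ∀ C : Circuit (Finset (Fin (k * (s + m)))),
        prob (fun z : Ω × T × Fin M => C.eval (indicator (F z.1 z.2.1 z.2.2)) = true) ≤
          B * (prob (fun z : Ω × Fin M => C.eval (indicator (G z.1 (z.2 + 1))) = true) +
            prob (fun z : Ω × Fin M => C.reads (indicator (G z.1 z.2)) ≠
              C.reads (indicator (G z.1 (z.2 + 1)))) +
            (C.size + C.numReads + 1) / (2 : ℝ) ^ ((1 - ε) * ((k * s : ℕ) : ℝ))) ∧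
        ∀ lev, IsLevel C lev →
          M * prob (fun z : Ω × Fin M => C.reads (indicator (G z.1 z.2)) ≠
              C.reads (indicator (G z.1 (z.2 + 1)))) + 1 ≤ levelProduct C lev := by
  classical
  obtain ⟨p, s₀, hp, h⟩ := average hH hP hC hL hM ε hε k (by omega)
  obtain ⟨m₀, hm₀⟩ := hG k hk ε hε
  have hp1 : (1 : ℝ) ≤ p := by exact_mod_cast hp.out.one_lt.le
  obtain ⟨Q, hQ⟩ : ∃ Q : ℝ, Q = 2 * (p : ℝ) ^ k := ⟨_, rfl⟩
  have hQ1 : 2 ≤ Q := by
    rw [hQ]
    have : (1 : ℝ) ≤ (p : ℝ) ^ k := one_le_pow₀ hp1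
    linarith
  refine ⟨max Q (max (s₀ : ℝ) (m₀ : ℝ)), (by linarith : (1 : ℝ) ≤ Q).trans (le_max_left _ _), ?_⟩
  intro s m hs hm
  have hs2 : s₀ ≤ s := by
    have : (s₀ : ℝ) ≤ s := ((le_max_left _ _).trans (le_max_right _ _)).trans hs
    exact_mod_cast this
  have hm2 : m₀ ≤ m := by
    have : (m₀ : ℝ) ≤ m := ((le_max_right _ _).trans (le_max_right _ _)).trans hm
    exact_mod_cast this
  obtain ⟨hs1, h2⟩ := h s hs2
  obtain ⟨M, hM1, ⟨P⟩⟩ := hm₀ m hm2
  have e : Fin (k * (s + m)) ≃ Fin (k * s) ⊕ Fin (k * m) :=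
    Fintype.equivOfCardEq (by simp [Nat.mul_add])
  haveI : Nonempty (Wt k s p) := card_wt k s p (Nat.mul_pos (by omega) hs1)
  have hM0 : (0 : ℝ) < M := by
    refine lt_of_lt_of_le ?_ hM1
    apply Real.rpow_pos_of_pos
    have : 0 < (k * m).choose m := Nat.choose_pos (Nat.le_mul_of_pos_left _ (by omega))
    exact_mod_cast this
  refine ⟨M, Fin M → Wt k s p, Equiv.Perm (Fin (k * s)), inferInstance, inferInstance,
    inferInstance, inferInstance, chainG p e P, fun ω t i => yesF p e P ω t (ord M i), hM1, ?_, ?_,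
    ?_⟩
  · intro ω i
    exact ⟨chain_mono hM p e P ω (Nat.le_succ i), chain_card hM p e P ω i,
      chain_no hN p e P hs1 (by omega) ω i⟩
  · intro ω t i
    refine ⟨?_, yes_card hM p e P ω t _, yes_cover hY p e P ω t _⟩
    have h3 := chain_sub_yes hM p e P ω t (ord M i)
    rw [ord_val] at h3
    exact h3
  intro C
  have hΩ : (0 : ℝ) < Fintype.card (Fin M → Wt k s p) := by exact_mod_cast Fintype.card_pos
  have hT : (0 : ℝ) < Fintype.card (Equiv.Perm (Fin (k * s))) := by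
    exact_mod_cast Fintype.card_pos
  -- the probabilities as sums
  have a1 : ∑ ω : Fin M → Wt k s p, ∑ β : Fin M, (∑ π : Equiv.Perm (Fin (k * s)),
        if C.eval (indicator (yesF p e P ω π β)) = true then (1 : ℝ) else 0) /
          Fintype.card (Equiv.Perm (Fin (k * s))) =
      Fintype.card (Fin M → Wt k s p) * M *
        prob (fun z : (Fin M → Wt k s p) × Equiv.Perm (Fin (k * s)) × Fin M =>
          C.eval (indicator (yesF p e P z.1 z.2.1 (ord M z.2.2))) = true) := by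
    have b1 : ∀ ω : Fin M → Wt k s p, ∑ β : Fin M, (∑ π : Equiv.Perm (Fin (k * s)),
        if C.eval (indicator (yesF p e P ω π β)) = true then (1 : ℝ) else 0) /
          Fintype.card (Equiv.Perm (Fin (k * s))) =
        (∑ y : Equiv.Perm (Fin (k * s)) × Fin M,
          if C.eval (indicator (yesF p e P ω y.1 (ord M y.2))) = true then (1 : ℝ) else 0) /
          Fintype.card (Equiv.Perm (Fin (k * s))) := by
      intro ω
      rw [Fintype.sum_prod_type, sum_comm, sum_div, sum_ord]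
    rw [sum_congr rfl (fun ω _ => b1 ω), ← sum_div]
    rw [prob_eq, Fintype.card_prod, Fintype.card_prod, Fintype.card_fin, Fintype.sum_prod_type]
    push_cast
    field_simp
  have a2 : ∀ (R : (Fin M → Wt k s p) → ℕ → Prop) [∀ ω J, Decidable (R ω J)],
      ∑ ω : Fin M → Wt k s p, ∑ β : Fin M,
        (if R ω (Fintype.equivFin (Fin M) β).val then (1 : ℝ) else 0) =
      Fintype.card (Fin M → Wt k s p) * M *
        prob (fun z : (Fin M → Wt k s p) × Fin M => R z.1 z.2) := by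
    intro R _
    have b1 : ∀ ω : Fin M → Wt k s p, ∑ β : Fin M,
        (if R ω (Fintype.equivFin (Fin M) β).val then (1 : ℝ) else 0) =
        ∑ i : Fin M, (if R ω i.val then (1 : ℝ) else 0) := by
      intro ω
      rw [sum_ord]
      apply sum_congr rfl
      intro i _
      rw [ord_val]
    rw [sum_congr rfl (fun ω _ => b1 ω)]
    rw [prob_eq, Fintype.card_prod, Fintype.card_fin, Fintype.sum_prod_type]
    push_cast
    field_simp
  have a3 := a2 (fun ω J => C.eval (indicator (chainG p e P ω (J + 1))) = true)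
  have a4 := a2 (fun ω J => C.reads (indicator (chainG p e P ω J)) ≠
    C.reads (indicator (chainG p e P ω (J + 1))))
  refine ⟨?_, ?_⟩
  · have h3 := h2 m M e P C
    rw [a1, sum_congr rfl (fun ω _ => sum_add_distrib), sum_add_distrib] at h3
    rw [a3, a4, ← hQ] at h3
    obtain ⟨Z, hZ⟩ : ∃ Z : ℝ, Z = (2 : ℝ) ^ ((1 - ε) * ((k * s : ℕ) : ℝ)) := ⟨_, rfl⟩
    have hZ0 : 0 < Z := by
      rw [hZ]
      positivity
    rw [← hZ] at h3 ⊢
    obtain ⟨U, hU⟩ : ∃ U : ℝ, U = Fintype.card (Fin M → Wt k s p) * M := ⟨_, rfl⟩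
    have hU0 : 0 < U := by
      rw [hU]
      positivity
    rw [← hU] at h3
    have h4 : (Fintype.card (Fin M → Wt k s p) : ℝ) *
        (M * (((C.size + C.numReads + 1 : ℕ) + 1 : ℝ) / Z)) =
        U * (((C.size + C.numReads + 1 : ℕ) + 1 : ℝ) / Z) := by
      rw [hU]
      ring
    rw [h4] at h3
    obtain ⟨p1, hp1⟩ : ∃ p1 : ℝ, p1 = prob (fun z : (Fin M → Wt k s p) × Equiv.Perm (Fin (k * s)) × Fin M =>
          C.eval (indicator (yesF p e P z.1 z.2.1 (ord M z.2.2))) = true) := ⟨_, rfl⟩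
    obtain ⟨p2, hp2⟩ : ∃ p2 : ℝ, p2 = prob (fun z : (Fin M → Wt k s p) × Fin M =>
      C.eval (indicator (chainG p e P z.1 (z.2 + 1))) = true) := ⟨_, rfl⟩
    obtain ⟨p3, hp3⟩ : ∃ p3 : ℝ, p3 = prob (fun z : (Fin M → Wt k s p) × Fin M =>
      C.reads (indicator (chainG p e P z.1 z.2)) ≠
        C.reads (indicator (chainG p e P z.1 (z.2 + 1)))) := ⟨_, rfl⟩
    rw [← hp1, ← hp2, ← hp3] at h3
    rw [← hp1, ← hp2, ← hp3]
    have hp2' : 0 ≤ p2 := by
      rw [hp2]
      unfold SN.prob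
      positivity
    have hp3' : 0 ≤ p3 := by
      rw [hp3]
      unfold SN.prob
      positivity
    have h5 : U * p1 ≤ U * ((((C.size + C.numReads + 1 : ℕ) + 1 : ℝ) / Z) + Q * (p2 + p3)) := by
      refine h3.trans (le_of_eq ?_)
      ring
    have h6 := le_of_mul_le_mul_left h5 hU0
    have hsz : (1 : ℝ) ≤ (C.size : ℝ) + C.numReads + 1 := by
      have h6 : (0 : ℝ) ≤ (C.size : ℝ) := Nat.cast_nonneg _
      have h7 : (0 : ℝ) ≤ (C.numReads : ℝ) := Nat.cast_nonneg _
      linarith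
    have h7 : (((C.size + C.numReads + 1 : ℕ) + 1 : ℝ) / Z) ≤
        Q * (((C.size : ℝ) + C.numReads + 1) / Z) := by
      rw [← mul_div_assoc]
      apply div_le_div_of_nonneg_right _ hZ0.le
      push_cast
      nlinarith
    calc p1 ≤ Q * (((C.size : ℝ) + C.numReads + 1) / Z) + Q * (p2 + p3) := by linarith
      _ = Q * (p2 + p3 + ((C.size : ℝ) + C.numReads + 1) / Z) := by ring
      _ ≤ max Q (max (s₀ : ℝ) (m₀ : ℝ)) * (p2 + p3 + ((C.size : ℝ) + C.numReads + 1) / Z) := by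
          apply mul_le_mul_of_nonneg_right (le_max_left _ _)
          positivity
  · intro lev hl
    have h3 : ∑ ω : Fin M → Wt k s p, ((∑ β : Fin M,
        if C.reads (indicator (chainG p e P ω (Fintype.equivFin (Fin M) β).val)) ≠
          C.reads (indicator (chainG p e P ω ((Fintype.equivFin (Fin M) β).val + 1)))
          then (1 : ℝ) else 0) + 1) ≤ ∑ _ω : Fin M → Wt k s p, (levelProduct C lev : ℝ) :=
      sum_le_sum fun ω _ => sum_changes hM p e P ω C lev hl
    rw [sum_add_distrib, sum_const, sum_const, card_univ, nsmul_eq_mul, nsmul_eq_mul, a4,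
      mul_one] at h3
    have h4 : (Fintype.card (Fin M → Wt k s p) : ℝ) * (M *
        prob (fun z : (Fin M → Wt k s p) × Fin M => C.reads (indicator (chainG p e P z.1 z.2)) ≠
          C.reads (indicator (chainG p e P z.1 (z.2 + 1)))) + 1) ≤
        Fintype.card (Fin M → Wt k s p) * levelProduct C lev := by
      refine le_trans (le_of_eq ?_) h3
      ring
    exact le_of_mul_le_mul_left h4 hΩ

end Pool.Agent.T9h36.SK
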