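import Pool.Agent.T9h20.SC.Wrap
import Pool.Agent.T9h36.SN.Path
import Pool.Agent.T9h36.SN.Defs
import Pool.Agent.T9h36.SK.Defs

/-!
# Set Cover with a few NOT gates: definitions and pieces
-/

set_option autoImplicit false

namespace Pool.Agent.T9h36.SK

open Finset
open Pool.Agent.T9h34 (Circuit)
open Pool.Agent.T9h16 (Leaf)
open Pool.Agent.T9h20 (FCircuit)
open Pool.Agent.T9h20.SC

/-- The atoms of a block: a role and a set. -/
abbrev Atom (k n : ℕ) : Type := Fin k × Finset (Fin n)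

/-- The yes-instance of a block: the classes of the partition belonging to `π`, with their roles. -/
def posA (k s : ℕ) (π : Equiv.Perm (Fin (k * s))) : Set (Atom k (k * s)) :=
  {e | e.2 = univ.filter (fun i => cls k s (π i) = e.1)}

/-- Weights with sum one. -/
abbrev Wt (k s p : ℕ) : Type := {w : Fin (k * s) → ZMod p // ∑ i, w i = 1}

/-- The no-instance of a block: the sets with `s` elements and sum zero, in all roles. -/
def negA (k s p : ℕ) (w : Wt k s p) : Set (Atom k (k * s)) :=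
  {e | e.2.card = s ∧ ∑ i ∈ e.2, w.1 i = 0}

/-- `M` partitions of `Fin (k * m)` into `k` sets with `m` elements which cannot be mixed. -/
structure Puzzle (k m M : ℕ) where
  S : Fin M → Fin k → Finset (Fin (k * m))
  card : ∀ j r, (S j r).card = m
  disj : ∀ j r r', r ≠ r' → Disjoint (S j r) (S j r')
  rigid : ∀ (j : Fin k → Fin M) (r : Fin k → Fin k),
    (∀ a b, a ≠ b → Disjoint (S (j a) (r a)) (S (j b) (r b))) →
    ∀ a b, j a = j b ∧ (a ≠ b → r a ≠ r b)

/-- The union of a set of elements of the main part and a set of elements of the puzzle. -/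
def glue {k s m : ℕ} (e : Fin (k * (s + m)) ≃ Fin (k * s) ⊕ Fin (k * m))
    (A : Finset (Fin (k * s))) (B : Finset (Fin (k * m))) : Finset (Fin (k * (s + m))) :=
  univ.filter (fun i => (∃ a ∈ A, e i = .inl a) ∨ ∃ b ∈ B, e i = .inr b)

open Classical in
/-- The family made of the blocks `y`. -/
noncomputable def fam {k s m M : ℕ} (e : Fin (k * (s + m)) ≃ Fin (k * s) ⊕ Fin (k * m))
    (P : Puzzle k m M) (y : Fin M → Set (Atom k (k * s))) : Finset (Finset (Fin (k * (s + m)))) :=
  univ.filter (fun B => ∃ j r A, (r, A) ∈ y j ∧ B = glue e A (P.S j r))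

/-- (A) Monotone circuits as monotone real circuits with gates of fan-in at most two. (Constants as
operands: use `FGate.op` which ignores the wire; output constant: one more gate.) -/
def S_Conv : Prop := ∀ (Λ : Type) (D : Circuit Λ), (∀ g ∈ D.gates, g.IsMono) →
  ∃ C : FCircuit Λ, C.size ≤ D.size + 1 ∧ C.FanInLe 2 ∧
    ∀ x : Λ → Bool, C.eval (fun a => if x a = true then (1 : ℝ) else 0) =
      if D.eval x = true then 1 else 0

open Classical in
/-- (B) The approximation method with explicit parameters. Proof: as `approx_inst` and `core` of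
T9h20/SC/Core2.lean, with `f = 2`, `StApprox` applied to the circuit of (A) and `ι = Λ`,
`xpos π a = if x (posA k s π) a then 1 else 0`, `xneg w a` = the same for the set of all `(r, A)` with
`A.card = s`, `w(A) = 0` (all `w`, not only those of sum one), and `base a t` = all ok labelings if
`t ≤ 0`, empty if `t > 1`; for `0 < t ≤ 1`: if `x z a` is the variable `(r, A)`: the labeling
`1` on `A`, `0` elsewhere, provided `A.card = s`; if it is a constant: all ok labelings or none.
If the circuit accepts `posA π` for some `π` outside of `L`, then `stNeg` gives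
`≥ p ^ (n - k - 1) / 2` weights of sum one whose instance is accepted, a fraction
`≥ 1 / (2 p ^ k)`; otherwise all accepted `π` are in `L`. -/
def S_Hard : Prop := ∀ (k s p : ℕ) [Fact p.Prime] (X K r G : ℕ), 2 ≤ k → 1 ≤ s → 1 ≤ X → 1 ≤ K →
  1 ≤ r →
  2 * X ^ ((k + 1) ^ 2 * r) * (X + (k + 1) ^ 2) ^ (k * s) ≤ K * X ^ (k * s) →
  (p ^ 2 * (k * s)) ^ (p - 1) * (p ^ 2 * (k * s) + p ^ 2) ^ (k * s)
    ≤ G * (p ^ 2 * (k * s)) ^ (k * s) →
  ∀ (Λ : Type) (D : Circuit Λ), (∀ g ∈ D.gates, g.IsMono) →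
  2 * (((D.size + 2) * ((2 + 1) * (((k + 1) ^ (k * s) + 1) *
      ((k + 1) ^ (k * s) * ((2 ^ r + 1) ^ (k + 1) * (p ^ (k * s + 1 - r) * G)))))) * p ^ (k + 1))
        ≤ p ^ (k * s) →
  ∀ x : Set (Atom k (k * s)) → Λ → Bool, (∀ a, Leaf (fun z => x z a = true)) →
  ((univ.filter fun π : Equiv.Perm (Fin (k * s)) => D.eval (x (posA k s π)) = true).card : ℝ) /
      Fintype.card (Equiv.Perm (Fin (k * s)))
    ≤ ((D.size : ℝ) + 1) * loss k s 2 K / 2 ^ (k * s) +
      2 * (p : ℝ) ^ k *
        (((univ.filter fun w : Wt k s p => D.eval (x (negA k s p w)) = true).card : ℝ) /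
          Fintype.card (Wt k s p))

open Classical in
/-- (C) The average over the path. Proof: as `step_average` and `path_average` of
T9h36/SN/Path.lean. -/
def S_Path : Prop := ∀ (ι E K T Λ : Type) [Fintype ι] [DecidableEq ι] [Fintype K] [Nonempty K]
  [Fintype T] [Nonempty T] (Ng : K → Set E) (Pg : T → Set E) (N : ℕ) (δ Q : ℝ), 0 ≤ Q →
  (∀ (D : Circuit Λ), (∀ g ∈ D.gates, g.IsMono) → D.size ≤ N →
      ∀ x : Set E → Λ → Bool, (∀ a, Leaf (fun z => x z a = true)) →
      ((univ.filter fun t : T => D.eval (x (Pg t)) = true).card : ℝ) / Fintype.card T ≤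
      δ + Q * (((univ.filter fun k : K => D.eval (x (Ng k)) = true).card : ℝ) /
        Fintype.card K)) →
  ∀ (C : Circuit Λ), C.size + C.numReads + 1 ≤ N →
  ∀ (X : (ι → Set E) → Λ → Bool),
    (∀ y y', (∀ i, y i ⊆ y' i) → ∀ a, X y a = true → X y' a = true) →
    (∀ e, (∃ t : Bool, ∀ y, X y e = t) ∨ ∃ i b, ∀ y, X y e = true ↔ b ∈ y i) →
    ∑ ω : ι → K, ∑ β : ι, (∑ t : T, if C.eval (X (Function.update
        (SN.pathY Ng ω (Fintype.equivFin ι β).val) β (Pg t))) = true then (1 : ℝ) else 0) /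
          Fintype.card T ≤
      Fintype.card (ι → K) * (Fintype.card ι * δ) +
      Q * ∑ ω : ι → K, ∑ β : ι,
        ((if C.eval (X (SN.pathY Ng ω ((Fintype.equivFin ι β).val + 1))) = true
          then (1 : ℝ) else 0) +
        (if C.reads (X (SN.pathY Ng ω (Fintype.equivFin ι β).val)) ≠
          C.reads (X (SN.pathY Ng ω ((Fintype.equivFin ι β).val + 1))) then (1 : ℝ) else 0))

/-- (D1) A set of the big universe is a set of at most one block. (If `P.S j r = P.S j' r'`, apply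
`rigid` to the parts of `j` with this one replaced by `(j', r')`.) -/
def S_Leaf : Prop := ∀ (k s m M : ℕ) (e : Fin (k * (s + m)) ≃ Fin (k * s) ⊕ Fin (k * m))
  (P : Puzzle k m M), 2 ≤ k → ∀ B : Finset (Fin (k * (s + m))),
    (∃ t : Bool, ∀ y, indicator (fam e P y) B = t) ∨
      ∃ j a, ∀ y : Fin M → Set (Atom k (k * s)), indicator (fam e P y) B = true ↔ a ∈ y j

/-- (D2) The family is nondecreasing; its members have `s + m` elements if the sets of the blocks
have `s` elements. -/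
def S_Mono : Prop := ∀ (k s m M : ℕ) (e : Fin (k * (s + m)) ≃ Fin (k * s) ⊕ Fin (k * m))
  (P : Puzzle k m M) (y y' : Fin M → Set (Atom k (k * s))),
    ((∀ j, y j ⊆ y' j) → fam e P y ⊆ fam e P y') ∧
    ((∀ j, ∀ a ∈ y j, a.2.card = s) → ∀ B ∈ fam e P y, B.card = s + m)

/-- (D3) A block with a partition gives a cover. -/
def S_Yes : Prop := ∀ (k s m M : ℕ) (e : Fin (k * (s + m)) ≃ Fin (k * s) ⊕ Fin (k * m))
  (P : Puzzle k m M) (y : Fin M → Set (Atom k (k * s))) (j : Fin M)
  (π : Equiv.Perm (Fin (k * s))), posA k s π ⊆ y j → HasCover k (fam e P y)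

/-- (D4) Blocks with sets of sum zero give no cover. (A cover by at most `k` sets with `s + m`
elements consists of `k` disjoint sets; by `rigid` all belong to the same block; the sum of the
weights of this block is zero, as in `zfam_no_cover` of T9h20/SC/Inst.lean.) -/
def S_No : Prop := ∀ (k s m M p : ℕ) [Fact p.Prime]
  (e : Fin (k * (s + m)) ≃ Fin (k * s) ⊕ Fin (k * m)) (P : Puzzle k m M)
  (y : Fin M → Set (Atom k (k * s))), 1 ≤ s → 2 ≤ k →
  (∀ j, ∃ w : Wt k s p, y j ⊆ negA k s p w) → ¬ HasCover k (fam e P y)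

/-- (E) The simple puzzle. With `Fin (k * (m + 1)) ≃ Fin (m + 1) × Fin k`: for a function
`a : Fin m → Bool` the set `S a r` consists of the pairs `(g, r + a g mod k)`, `g < m`, and of
`(m, r)`. Rigid: the last group shows that `r` is injective; in every group `ρ ↦ ρ + β ρ`
(`β ρ = 0, 1`) is injective on the numbers mod `k`, so `β ρ = 1` implies `β (ρ + 1) = 1`, and `β` is
constant. -/
def S_Puz : Prop := ∀ k m : ℕ, 2 ≤ k → Nonempty (Puzzle k (m + 1) (2 ^ m))

/-- (F) The parameters, with `p` independent of `s` (helper36; adapts T9h36/SC/P9.lean). -/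
def S_Param : Prop := ∀ (ε : ℝ), 0 < ε → ∀ k : ℕ, 2 ≤ k → ∃ p s₀ : ℕ, p.Prime ∧ ∀ s ≥ s₀, 1 ≤ s ∧
  ∃ X K r G : ℕ, 1 ≤ X ∧ 1 ≤ K ∧ 1 ≤ r ∧
    2 * X ^ ((k + 1) ^ 2 * r) * (X + (k + 1) ^ 2) ^ (k * s) ≤ K * X ^ (k * s) ∧
    (p ^ 2 * (k * s)) ^ (p - 1) * (p ^ 2 * (k * s) + p ^ 2) ^ (k * s)
      ≤ G * (p ^ 2 * (k * s)) ^ (k * s) ∧
    (∀ m : ℕ, m ≤ 2 ^ (k * s) → 2 * (((m + 2) * ((2 + 1) * (((k + 1) ^ (k * s) + 1) *
      ((k + 1) ^ (k * s) * ((2 ^ r + 1) ^ (k + 1) * (p ^ (k * s + 1 - r) * G)))))) * p ^ (k + 1))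
        ≤ p ^ (k * s)) ∧
    (loss k s 2 K : ℝ) * (2 : ℝ) ^ ((1 - ε) * ((k * s : ℕ) : ℝ)) ≤ 2 ^ (k * s)

end Pool.Agent.T9h36.SK
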